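import Pool.Agent.Sausage27.SC

/-!
# The extremal bodies for the first intrinsic volume and many balls

For every dimension `d ≥ 2` there is `N₀` such that for every `n ≥ N₀` the extremal set (a compact
convex set of maximal first intrinsic volume among all compact convex sets whose `1`-skeleton is
covered by `n` unit balls) is unique up to congruence, and it is the explicit set `K_b` which
consists of the points `x` with `|x'| ≤ √(1 - b²/4)` and `|x₁| ≤ (n-1) b / 2 + √(1 - |x'|²)`, where
`x₁` is the coordinate along the axis and `x'` is the perpendicular part, for exactly one spacing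
`b = b_n` in `[0, 2]`, the unique maximiser of `V₁(K_b)`.
-/

namespace Pool.Agent.Results.MP_170fb6_co.ExtremalBody

open Pool.Agent.Sausage27 Metric Set

theorem result (d : ℕ) (hd : 2 ≤ d) :
    ∃ N₀ : ℕ, ∀ n ≥ N₀, ∃ b ∈ Icc (0 : ℝ) 2,
      (∀ e : Eu d, ‖e‖ = 1 → ∀ b' ∈ Icc (0 : ℝ) 2, b' ≠ b →
        V1 (Kset e (((n : ℝ) - 1) * b' / 2) (√(1 - b' ^ 2 / 4))) <
        V1 (Kset e (((n : ℝ) - 1) * b / 2) (√(1 - b ^ 2 / 4)))) ∧
      ∀ D : Set (Eu d), Extremal n D ↔ ∃ e a : Eu d, ‖e‖ = 1 ∧
        D = (fun x => x + a) '' Kset e (((n : ℝ) - 1) * b / 2) (√(1 - b ^ 2 / 4)) :=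
  SC_unique d hd

end Pool.Agent.Results.MP_170fb6_co.ExtremalBody
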