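import Pool.Agent.Sausage27.FN30

/-!
# The sausage-skin conjecture for the first intrinsic volume and many balls

For every dimension `d ≥ 2` there is `N₀` such that for every `n ≥ N₀` and every extremal set `D`
(a compact convex set of maximal first intrinsic volume among all compact convex sets whose
`1`-skeleton is covered by `n` unit balls): the `1`-skeleton of `D` is covered by `n` unit balls
with aligned, equally spaced centres; moreover every family of `n` unit balls that covers the
`1`-skeleton of `D` has aligned and equally spaced centres.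
-/

namespace Pool.Agent.Results.MP_170fb6_co.SausageFirstVolume

open Pool.Agent.Sausage27 Metric Set

theorem result (d : ℕ) (hd : 2 ≤ d) :
    ∃ N₀ : ℕ, ∀ n ≥ N₀, ∀ D : Set (Eu d), Extremal n D →
      (∃ p v : Eu d, skel 1 D ⊆ ⋃ j : Fin n, closedBall (p + (j : ℝ) • v) 1) ∧
      ∀ c : Fin n → Eu d, skel 1 D ⊆ ⋃ j, closedBall (c j) 1 →
        ∃ (π : Equiv.Perm (Fin n)) (p v : Eu d), ∀ j : Fin n, c (π j) = p + (j : ℝ) • v :=
  main d hd

end Pool.Agent.Results.MP_170fb6_co.SausageFirstVolume
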