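import Pool.Agent.Saus2.Final
import Pool.Agent.Saus2.Q17

/-!
# The second intrinsic volume: the sharp leading constant

For every `d ≥ 3`, with `β = 2 √π Γ(d/2) / Γ((d-1)/2)` (the first intrinsic volume of the
`(d-1)`-dimensional unit ball): the maximum of the second intrinsic volume over all compact convex
sets whose `2`-skeleton is covered by `n` unit balls is `β n + o(n)`; the lower bound `β n` is
reached for every `n ≥ 1` by a cylinder of radius `1/√2` covered by `n` unit balls with aligned,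
equally spaced centres.
-/

namespace Pool.Agent.Results.MP_170fb6_co.SecondVolume

open Pool.Agent.Sausage27 Pool.Agent.Saus2 Metric Set

theorem result (d : ℕ) (hd : 3 ≤ d) :
    (∀ n : ℕ, 1 ≤ n → ∃ (D : Set (Eu d)) (p v : Eu d), Body D ∧
      D ⊆ ⋃ j : Fin n, closedBall (p + ((j : ℕ) : ℝ) • v) 1 ∧ betaV d * n ≤ V2S D) ∧
    ∀ ε : ℝ, 0 < ε → ∃ N₀ : ℕ, ∀ n ≥ N₀, ∀ (D : Set (Eu d)) (c : Fin n → Eu d),
      Body D → skel 2 D ⊆ ⋃ j, closedBall (c j) 1 → V2S D ≤ (betaV d + ε) * n := by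
  refine ⟨fun n hn => ?_, fun ε hε => ?_⟩
  · obtain ⟨D, p, v, hD, hc, hV⟩ := lower_aligned (d := d) (by omega) hn
    exact ⟨D, p, v, hD, hc, by rw [V2S_eq (by omega) hD]; exact hV⟩
  · obtain ⟨N₀, h⟩ := upper hd hε
    refine ⟨N₀, fun n hn D c hD hc => ?_⟩
    rw [V2S_eq (by omega) hD]
    exact h n hn D c hD hc

end Pool.Agent.Results.MP_170fb6_co.SecondVolume
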