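import Pool.Agent.Sausage27.SB

/-!
# The maximal first intrinsic volume: sharp asymptotics

For every dimension `d ≥ 2` there is `N₀` such that for every `n ≥ N₀` and every extremal set `D`
(a compact convex set of maximal first intrinsic volume among all compact convex sets whose
`1`-skeleton is covered by `n` unit balls), with `β = 2 √π Γ(d/2) / Γ((d-1)/2)`, the first intrinsic
volume of the `(d-1)`-dimensional unit ball,

`√(4 n² + β²) ≤ V₁(D) ≤ 2 + √(4 (n-1)² + β²)` and `|V₁(D) - 2 n - β² / (4 n)| ≤ (β² + β⁴) / n²`.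
-/

namespace Pool.Agent.Results.MP_170fb6_co.SharpAsymptotics

open Pool.Agent.Sausage27 Metric Set

theorem result (d : ℕ) (hd : 2 ≤ d) :
    ∃ N₀ : ℕ, ∀ n ≥ N₀, ∀ D : Set (Eu d), Extremal n D →
      √(4 * (n : ℝ) ^ 2 + betaV d ^ 2) ≤ V1 D ∧
      V1 D ≤ 2 + √(4 * ((n : ℝ) - 1) ^ 2 + betaV d ^ 2) ∧
      |V1 D - (2 * n + betaV d ^ 2 / (4 * n))| ≤ (betaV d ^ 2 + betaV d ^ 4) / (n : ℝ) ^ 2 :=
  SB_asymp d hd

end Pool.Agent.Results.MP_170fb6_co.SharpAsymptotics
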